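import Pool.Agent.K3h44.SQ.Stm2

/-!
# A number field containing the roots of `X ^ 3 + a` (brick FLD2; compare brick FLD of helper35)
-/

set_option autoImplicit false

namespace Pool.Agent.K3h90.SQ

open NumberField IsDedekindDomain

theorem t_FLD2 : Pool.Agent.K3h44.SQ.S_FLD2 := by
  intro a
  obtain ⟨z, hz⟩ := IsAlgClosed.exists_pow_nat_eq (((-a : ℤ)) : ℂ) (n := 3) three_pos
  obtain ⟨ω, hω⟩ : ∃ ω : ℂ, IsPrimitiveRoot ω 3 := ⟨_, Complex.isPrimitiveRoot_exp 3 (by norm_num)⟩
  have hω3 : ω ^ 3 = 1 := hω.pow_eq_one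
  have hω2 : 1 + ω + ω ^ 2 = 0 := by
    have h := hω.geom_sum_eq_zero (by norm_num)
    simpa [Finset.sum_range_succ] using h
  have hzi : IsIntegral ℤ z := by
    refine IsIntegral.of_pow three_pos ?_
    rw [hz]
    exact isIntegral_algebraMap (x := -a)
  have hωi : IsIntegral ℤ ω := by
    refine IsIntegral.of_pow three_pos ?_
    rw [hω3]
    exact isIntegral_one
  let K : IntermediateField ℚ ℂ := IntermediateField.adjoin ℚ {z, ω}
  have hfd : FiniteDimensional ℚ K := by
    refine IntermediateField.finiteDimensional_adjoin ?_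
    intro x hx
    rcases hx with rfl | hx
    · exact hzi.tower_top
    · rw [Set.mem_singleton_iff] at hx
      rw [hx]
      exact hωi.tower_top
  have hK : NumberField K := { to_charZero := inferInstance, to_finiteDimensional := hfd }
  let x : K := ⟨z, IntermediateField.subset_adjoin ℚ _ (Set.mem_insert _ _)⟩
  let y : K := ⟨ω, IntermediateField.subset_adjoin ℚ _ (Set.mem_insert_of_mem _ rfl)⟩
  have hx : x ^ 3 = ((-a : ℤ) : K) := by
    apply Subtype.ext
    change z ^ 3 = (((-a : ℤ) : K) : ℂ)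
    rw [hz]
    simp
  have hy : 1 + y + y ^ 2 = 0 := by
    apply Subtype.ext
    exact hω2
  have hy3 : y ^ 3 = 1 := by
    apply Subtype.ext
    exact hω3
  have hxi : IsIntegral ℤ x := by
    refine IsIntegral.of_pow three_pos ?_
    rw [hx]
    exact isIntegral_algebraMap (x := -a)
  have hyi : IsIntegral ℤ y := by
    refine IsIntegral.of_pow three_pos ?_
    rw [hy3]
    exact isIntegral_one
  obtain ⟨s, hs⟩ : ∃ s : 𝓞 K, algebraMap (𝓞 K) K s = x :=
    (IsIntegralClosure.isIntegral_iff (A := 𝓞 K)).1 hxi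
  obtain ⟨w, hw⟩ : ∃ w : 𝓞 K, algebraMap (𝓞 K) K w = y :=
    (IsIntegralClosure.isIntegral_iff (A := 𝓞 K)).1 hyi
  have h1 : s ^ 3 = -(a : 𝓞 K) := by
    apply RingOfIntegers.coe_injective
    calc algebraMap (𝓞 K) K (s ^ 3) = (algebraMap (𝓞 K) K s) ^ 3 := map_pow _ _ _
      _ = ((-a : ℤ) : K) := by rw [hs, hx]
      _ = algebraMap (𝓞 K) K (-(a : 𝓞 K)) := by rw [map_neg, map_intCast, Int.cast_neg]
  have h2 : 1 + w + w ^ 2 = 0 := by
    apply RingOfIntegers.coe_injective
    calc algebraMap (𝓞 K) K (1 + w + w ^ 2) = 1 + algebraMap (𝓞 K) K w +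
          (algebraMap (𝓞 K) K w) ^ 2 := by rw [map_add, map_add, map_pow, map_one]
      _ = 0 := by rw [hw, hy]
      _ = algebraMap (𝓞 K) K 0 := (map_zero _).symm
  refine ⟨K, inferInstance, hK, s, w * s, w ^ 2 * s, fun u => ?_⟩
  linear_combination (-s * u ^ 2 + s ^ 2 * w * u + (a : 𝓞 K) * (w - 1)) * h2 - w ^ 3 * h1

end Pool.Agent.K3h90.SQ
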